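import Mathlib

set_option autoImplicit false

/-!
Bad real parameters at dyadic scales, with a power saving for 1-spaced parameters: the number of the integers near a bad
parameter, all scales (helper74).
-/

namespace Pool.Agent.J4.H74.OZ

open Finset Filter Topology

/-- the scale of `a`: `2 ^ (sc a - 1) ≤ a < 2 ^ (sc a)` for `a ≥ 1` -/
noncomputable def sc (a : ℝ) : ℕ := Nat.log 2 ⌊a⌋₊ + 1

lemma sc_bounds {a : ℝ} (ha : 1 ≤ a) : (2 : ℝ) ^ (sc a) / 2 ≤ a ∧ a < 2 ^ (sc a) := by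
  have h1 : 1 ≤ ⌊a⌋₊ := (Nat.one_le_floor_iff a).2 ha
  constructor
  · have h2 : 2 ^ (Nat.log 2 ⌊a⌋₊) ≤ ⌊a⌋₊ := Nat.pow_log_le_self 2 (by omega)
    have h3 : ((2 : ℝ) ^ (Nat.log 2 ⌊a⌋₊)) ≤ (⌊a⌋₊ : ℝ) := by exact_mod_cast h2
    have h4 : (⌊a⌋₊ : ℝ) ≤ a := Nat.floor_le (by linarith)
    unfold sc
    rw [pow_succ]
    linarith
  · have h2 : ⌊a⌋₊ < 2 ^ (Nat.log 2 ⌊a⌋₊ + 1) := Nat.lt_pow_succ_log_self (by norm_num) _
    have h3 : ⌊a⌋₊ + 1 ≤ 2 ^ (Nat.log 2 ⌊a⌋₊ + 1) := h2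
    have h4 : ((⌊a⌋₊ : ℝ) + 1) ≤ 2 ^ (Nat.log 2 ⌊a⌋₊ + 1) := by exact_mod_cast h3
    have h5 := Nat.lt_floor_add_one a
    unfold sc
    linarith

/-- the integers near a bad parameter -/
def Near (Bad : ℕ → ℝ → Prop) (n : ℕ) : Prop := ∃ a : ℝ, 2 ≤ a ∧ |a - n| ≤ 1 ∧ Bad (sc a) a

/-- few bad parameters among 1-spaced ones at the scales `2 ^ j` -/
def Few (s : ℝ) (Bad : ℕ → ℝ → Prop) : Prop :=
  ∃ j₀ : ℕ, ∀ j : ℕ, j₀ ≤ j → ∀ (A : Finset ℕ) (g : ℕ → ℝ) (w : ℝ),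
    (∀ a ∈ A, (2 : ℝ) ^ j / 2 ≤ g a ∧ g a + 1 ≤ 2 * 2 ^ j) →
    (∀ y : ℝ, ({a : ℕ | a ∈ A ∧ y ≤ g a ∧ g a < y + 1}.ncard : ℝ) ≤ w) →
    ({a : ℕ | a ∈ A ∧ Bad j (g a)}.ncard : ℝ) ≤ w * ((2 : ℝ) ^ j) ^ s

open Classical in
theorem near_count {s : ℝ} (hs : 0 ≤ s) {Bad : ℕ → ℝ → Prop} (hB : Few s Bad) (ε : ℝ) (hε : 0 < ε) :
    ∃ C : ℝ, ∀ X : ℕ, 1 ≤ X → ({n : ℕ | 1 ≤ n ∧ n ≤ X ∧ Near Bad n}.ncard : ℝ) ≤ C * (X : ℝ) ^ (s + ε) := by
  obtain ⟨j₀, hj₀⟩ := hB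
  obtain ⟨C₁, hC₁⟩ : ∃ C₁ : ℝ, C₁ = 4 * 4 ^ s + (2 ^ j₀ + 2) := ⟨_, rfl⟩
  have hC₁0 : 0 < C₁ := by rw [hC₁]; positivity
  refine ⟨(4 + 2 / ε) * C₁, fun X hX => ?_⟩
  have hX1 : (1 : ℝ) ≤ X := by exact_mod_cast hX
  have hX0 : (0 : ℝ) < X := by linarith
  obtain ⟨S, hS⟩ : ∃ S : Finset ℕ, S = (Icc 1 X).filter (fun n => Near Bad n) := ⟨_, rfl⟩
  have e0 : {n : ℕ | 1 ≤ n ∧ n ≤ X ∧ Near Bad n} = (S : Set ℕ) := by
    ext n
    rw [hS, Finset.coe_filter, Set.mem_ofPred_eq, Set.mem_ofPred_eq, mem_Icc]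
    tauto
  rw [e0, Set.ncard_coe_finset]
  have hex : ∀ n : ℕ, ∃ a : ℝ, n ∈ S → 2 ≤ a ∧ |a - n| ≤ 1 ∧ Bad (sc a) a := by
    intro n
    by_cases hn : n ∈ S
    · rw [hS, mem_filter] at hn
      obtain ⟨a, ha⟩ := hn.2
      exact ⟨a, fun _ => ha⟩
    · exact ⟨0, fun h => absurd h hn⟩
  choose g hg using hex
  obtain ⟨J, hJ⟩ : ∃ J : ℕ, J = Nat.log 2 (X + 1) + 1 := ⟨_, rfl⟩
  have hgX : ∀ n ∈ S, g n < X + 2 ∧ sc (g n) ≤ J := by
    intro n hn
    obtain ⟨h1, h2, -⟩ := hg n hn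
    rw [hS, mem_filter, mem_Icc] at hn
    have hnX : (n : ℝ) ≤ X := by exact_mod_cast hn.1.2
    have h3 := (abs_le.1 h2).2
    refine ⟨by linarith, ?_⟩
    have h4 : ⌊g n⌋₊ ≤ X + 1 := by
      have : g n ≤ ((X + 1 : ℕ) : ℝ) := by push_cast; linarith
      calc ⌊g n⌋₊ ≤ ⌊((X + 1 : ℕ) : ℝ)⌋₊ := Nat.floor_le_floor this
        _ = X + 1 := Nat.floor_natCast _
    unfold sc
    rw [hJ]
    have := Nat.log_mono_right (b := 2) h4
    omega
  have hcover : S ⊆ (range (J + 1)).biUnion (fun j => S.filter (fun n => sc (g n) = j)) := by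
    intro n hn
    rw [mem_biUnion]
    exact ⟨sc (g n), by rw [mem_range]; have := (hgX n hn).2; omega, by rw [mem_filter]; exact ⟨hn, rfl⟩⟩
  have hpiece : ∀ j ∈ range (J + 1), ((S.filter (fun n => sc (g n) = j)).card : ℝ) ≤ C₁ * (X : ℝ) ^ s := by
    intro j hj
    rw [mem_range] at hj
    have hXs : 1 ≤ (X : ℝ) ^ s := Real.one_le_rpow hX1 hs
    rcases lt_or_ge j j₀ with hlt | hge
    · have h1 : S.filter (fun n => sc (g n) = j) ⊆ range (2 ^ j₀ + 2) := by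
        intro n hn
        rw [mem_filter] at hn
        obtain ⟨h1, h2, -⟩ := hg n hn.1
        have h3 := (sc_bounds (show 1 ≤ g n by linarith)).2
        rw [hn.2] at h3
        have h4 : (2 : ℝ) ^ j ≤ 2 ^ j₀ := pow_le_pow_right₀ (by norm_num) hlt.le
        have h5 := (abs_le.1 h2).1
        rw [mem_range]
        have h6 : (n : ℝ) < ((2 ^ j₀ + 2 : ℕ) : ℝ) := by
          push_cast
          linarith
        exact_mod_cast h6
      have h2 : ((S.filter (fun n => sc (g n) = j)).card : ℝ) ≤ 2 ^ j₀ + 2 := by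
        have := card_le_card h1
        rw [card_range] at this
        exact_mod_cast this
      refine h2.trans ?_
      have h3 : (2 : ℝ) ^ j₀ + 2 ≤ C₁ := by
        rw [hC₁]
        have : (0 : ℝ) < 4 * 4 ^ s := by positivity
        linarith
      calc (2 : ℝ) ^ j₀ + 2 ≤ C₁ * 1 := by linarith
        _ ≤ C₁ * (X : ℝ) ^ s := mul_le_mul_of_nonneg_left hXs hC₁0.le
    · have h1 := hj₀ j hge (S.filter (fun n => sc (g n) = j)) g 4 (by
        intro n hn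
        rw [mem_filter] at hn
        obtain ⟨h1, h2, -⟩ := hg n hn.1
        have h3 := sc_bounds (show 1 ≤ g n by linarith)
        rw [hn.2] at h3
        refine ⟨h3.1, ?_⟩
        have h4 : (1 : ℝ) ≤ 2 ^ j := one_le_pow₀ (by norm_num)
        linarith) (by
        intro y
        have hsub : {a : ℕ | a ∈ S.filter (fun n => sc (g n) = j) ∧ y ≤ g a ∧ g a < y + 1} ⊆
            ((Icc ⌈y - 1⌉ (⌈y - 1⌉ + 3)).image Int.toNat : Finset ℕ) := by
          rintro n ⟨hn, h3, h4⟩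
          rw [mem_filter] at hn
          obtain ⟨h1, h2, -⟩ := hg n hn.1
          have h5 := abs_le.1 h2
          rw [Finset.mem_coe, mem_image]
          refine ⟨(n : ℤ), ?_, Int.toNat_natCast n⟩
          rw [mem_Icc]
          constructor
          · rw [Int.ceil_le]
            push_cast
            linarith
          · have h6 : (n : ℝ) < ((⌈y - 1⌉ + 4 : ℤ) : ℝ) := by
              push_cast
              have := Int.le_ceil (y - 1)
              linarith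
            have h7 : (n : ℤ) < ⌈y - 1⌉ + 4 := by exact_mod_cast h6
            omega
        have h8 := Set.ncard_le_ncard hsub (Finset.finite_toSet _)
        rw [Set.ncard_coe_finset] at h8
        have h9 : ((Icc ⌈y - 1⌉ (⌈y - 1⌉ + 3)).image Int.toNat).card ≤ 4 := by
          refine card_image_le.trans ?_
          rw [Int.card_Icc]
          omega
        exact_mod_cast h8.trans h9)
      have h2 : {a : ℕ | a ∈ S.filter (fun n => sc (g n) = j) ∧ Bad j (g a)} =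
          (S.filter (fun n => sc (g n) = j) : Set ℕ) := by
        ext n
        constructor
        · rintro ⟨h3, -⟩
          exact h3
        · intro h3
          refine ⟨h3, ?_⟩
          have h3' : n ∈ S.filter (fun n => sc (g n) = j) := h3
          rw [mem_filter] at h3'
          have h4 := (hg n h3'.1).2.2
          rw [h3'.2] at h4
          exact h4
      rw [h2, Set.ncard_coe_finset] at h1
      refine h1.trans ?_
      have h3 : (2 : ℝ) ^ j ≤ 4 * X := by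
        have h4 : 2 ^ j ≤ 2 * (X + 1) := by
          have h5 : 2 ^ (Nat.log 2 (X + 1)) ≤ X + 1 := Nat.pow_log_le_self 2 (by omega)
          calc 2 ^ j ≤ 2 ^ J := Nat.pow_le_pow_right (by norm_num) (by omega)
            _ = 2 ^ (Nat.log 2 (X + 1)) * 2 := by rw [hJ, pow_succ]
            _ ≤ (X + 1) * 2 := Nat.mul_le_mul_right _ h5
            _ = 2 * (X + 1) := by ring
        have h5 : ((2 : ℝ) ^ j) ≤ 2 * (X + 1) := by exact_mod_cast h4
        linarith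
      have h4 : ((2 : ℝ) ^ j) ^ s ≤ 4 ^ s * (X : ℝ) ^ s := by
        rw [← Real.mul_rpow (by norm_num) hX0.le]
        exact Real.rpow_le_rpow (by positivity) h3 hs
      calc (4 : ℝ) * ((2 : ℝ) ^ j) ^ s ≤ 4 * (4 ^ s * (X : ℝ) ^ s) := mul_le_mul_of_nonneg_left h4 (by norm_num)
        _ = (4 * 4 ^ s) * (X : ℝ) ^ s := by ring
        _ ≤ C₁ * (X : ℝ) ^ s := by
            apply mul_le_mul_of_nonneg_right _ (by positivity)
            rw [hC₁]
            have : (0 : ℝ) < 2 ^ j₀ := by positivity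
            linarith
  have hJr : (J : ℝ) + 1 ≤ (4 + 2 / ε) * (X : ℝ) ^ ε := by
    have h1 : ((Nat.log 2 (X + 1) : ℕ) : ℝ) ≤ 2 * Real.log (2 * X) := by
      have h2 : (2 : ℝ) ^ (Nat.log 2 (X + 1)) ≤ 2 * X := by
        have h3 : 2 ^ (Nat.log 2 (X + 1)) ≤ X + 1 := Nat.pow_log_le_self 2 (by omega)
        have h4 : ((2 : ℝ) ^ (Nat.log 2 (X + 1))) ≤ X + 1 := by exact_mod_cast h3
        linarith
      have h3 := Real.log_le_log (by positivity) h2
      rw [Real.log_pow] at h3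
      have h4 := Real.log_two_gt_d9
      have h5 : (0 : ℝ) ≤ (Nat.log 2 (X + 1) : ℕ) := Nat.cast_nonneg _
      nlinarith
    have h2 : Real.log (2 * X) ≤ 1 + (X : ℝ) ^ ε / ε := by
      rw [Real.log_mul (by norm_num) hX0.ne']
      have h3 := Real.log_le_rpow_div hX0.le hε
      have h4 := Real.log_two_lt_d9
      linarith
    have h3 : 1 ≤ (X : ℝ) ^ ε := Real.one_le_rpow hX1 hε.le
    rw [hJ]
    push_cast
    calc (Nat.log 2 (X + 1) : ℝ) + 1 + 1 ≤ 2 * (1 + (X : ℝ) ^ ε / ε) + 2 := by linarith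
      _ = 4 + 2 / ε * (X : ℝ) ^ ε := by ring
      _ ≤ 4 * (X : ℝ) ^ ε + 2 / ε * (X : ℝ) ^ ε := by linarith
      _ = _ := by ring
  have hcard : (S.card : ℝ) ≤ ∑ j ∈ range (J + 1), ((S.filter (fun n => sc (g n) = j)).card : ℝ) := by
    exact_mod_cast (card_le_card hcover).trans card_biUnion_le
  refine hcard.trans ((sum_le_sum hpiece).trans ?_)
  rw [sum_const, card_range, nsmul_eq_mul, Real.rpow_add hX0]
  push_cast
  calc ((J : ℝ) + 1) * (C₁ * (X : ℝ) ^ s) ≤ ((4 + 2 / ε) * (X : ℝ) ^ ε) * (C₁ * (X : ℝ) ^ s) :=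
        mul_le_mul_of_nonneg_right hJr (by positivity)
    _ = _ := by ring

/-- a real parameter in a window of length at least `2` has an integer of the window within distance `1` -/
lemma exists_near {a x w : ℝ} (ha : 2 ≤ a) (hw : 1 ≤ w) (h : |a - x| ≤ w) :
    ∃ n : ℕ, 1 ≤ n ∧ |(n : ℝ) - x| ≤ w ∧ |a - n| ≤ 1 := by
  obtain ⟨h1, h2⟩ := abs_le.1 h
  obtain ⟨l, hl⟩ : ∃ l : ℝ, l = max (a - 1) (x - w) := ⟨_, rfl⟩
  have hl1 : a - 1 ≤ l := by rw [hl]; exact le_max_left _ _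
  have hl2 : x - w ≤ l := by rw [hl]; exact le_max_right _ _
  have hl3 : l + 1 ≤ a + 1 := by
    have : l ≤ a := by rw [hl]; exact max_le (by linarith) (by linarith)
    linarith
  have hl4 : l + 1 ≤ x + w := by
    have : l ≤ x + w - 1 := by rw [hl]; exact max_le (by linarith) (by linarith)
    linarith
  have hl0 : 1 ≤ l := by linarith
  refine ⟨⌈l⌉₊, ?_, ?_, ?_⟩
  · exact Nat.one_le_ceil_iff.2 (by linarith)
  · have h3 := Nat.le_ceil l
    have h4 := Nat.ceil_lt_add_one (show 0 ≤ l by linarith)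
    rw [abs_le]
    constructor <;> linarith
  · have h3 := Nat.le_ceil l
    have h4 := Nat.ceil_lt_add_one (show 0 ≤ l by linarith)
    rw [abs_le]
    constructor <;> linarith

end Pool.Agent.J4.H74.OZ
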