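import Mathlib

set_option autoImplicit false

/-!
Homogeneous functions of two variables for the relations between ordinates: examples (helper74).
-/

namespace Pool.Agent.J4.H74.OZ

/-- `F (u, v)` is positive, homogeneous of degree one, smooth enough, and `F_v` and `F_uv` have no zero, for
`u, v > 0` -/
def Hom (F : ℝ → ℝ → ℝ) : Prop :=
  (∀ t u v : ℝ, 0 < t → 0 < u → 0 < v → F (t * u) (t * v) = t * F u v) ∧
  ∃ Fu Fuu Fv Fuv Fuuv : ℝ → ℝ → ℝ,
    (∀ u v : ℝ, 0 < u → 0 < v → HasDerivAt (fun u => F u v) (Fu u v) u ∧ HasDerivAt (fun u => Fu u v) (Fuu u v) u ∧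
      HasDerivAt (fun v => F u v) (Fv u v) v ∧ HasDerivAt (fun v => Fu u v) (Fuv u v) v ∧
      HasDerivAt (fun v => Fuu u v) (Fuuv u v) v) ∧
    (∀ G ∈ [F, Fu, Fuu, Fv, Fuv, Fuuv],
      ContinuousOn (fun z : ℝ × ℝ => G z.1 z.2) (Set.Ioi 0 ×ˢ Set.Ioi 0)) ∧
    ∀ u v : ℝ, 0 < u → 0 < v → 0 < F u v ∧ Fv u v ≠ 0 ∧ Fuv u v ≠ 0

lemma dr {x p : ℝ} (hx : 0 < x) : HasDerivAt (fun x : ℝ => x ^ p) (p * x ^ (p - 1)) x :=
  Real.hasDerivAt_rpow_const (Or.inl hx.ne')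

lemma co1 (p : ℝ) : ContinuousOn (fun z : ℝ × ℝ => z.1 ^ p) (Set.Ioi 0 ×ˢ Set.Ioi 0) :=
  continuousOn_fst.rpow_const fun _ hz => Or.inl (ne_of_gt hz.1)

lemma co2 (p : ℝ) : ContinuousOn (fun z : ℝ × ℝ => z.2 ^ p) (Set.Ioi 0 ×ˢ Set.Ioi 0) :=
  continuousOn_snd.rpow_const fun _ hz => Or.inl (ne_of_gt hz.2)

/-- `u ^ α v ^ (1 - α)` -/
theorem hom_mul {α : ℝ} (h0 : α ≠ 0) (h1 : α ≠ 1) : Hom (fun u v => u ^ α * v ^ (1 - α)) := by
  have h2 : 1 - α ≠ 0 := sub_ne_zero.2 (Ne.symm h1)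
  refine ⟨?_, fun u v => α * u ^ (α - 1) * v ^ (1 - α), fun u v => α * ((α - 1) * u ^ (α - 1 - 1)) * v ^ (1 - α),
    fun u v => u ^ α * ((1 - α) * v ^ (1 - α - 1)), fun u v => α * u ^ (α - 1) * ((1 - α) * v ^ (1 - α - 1)),
    fun u v => α * ((α - 1) * u ^ (α - 1 - 1)) * ((1 - α) * v ^ (1 - α - 1)), ?_, ?_, ?_⟩
  · intro t u v ht hu hv
    dsimp only
    rw [Real.mul_rpow ht.le hu.le, Real.mul_rpow ht.le hv.le]
    have e : t ^ α * t ^ (1 - α) = t := by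
      rw [← Real.rpow_add ht, add_sub_cancel, Real.rpow_one]
    calc t ^ α * u ^ α * (t ^ (1 - α) * v ^ (1 - α)) = (t ^ α * t ^ (1 - α)) * (u ^ α * v ^ (1 - α)) := by ring
      _ = _ := by rw [e]
  · intro u v hu hv
    refine ⟨(dr hu).mul_const _, ?_, (dr hv).const_mul _, ?_, ?_⟩
    · exact ((dr hu).const_mul α).mul_const _
    · exact (dr hv).const_mul _
    · exact (dr hv).const_mul _
  · intro G hG
    simp only [List.mem_cons, List.not_mem_nil, or_false] at hG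
    rcases hG with rfl | rfl | rfl | rfl | rfl | rfl
    · exact (co1 _).mul (co2 _)
    · exact ((co1 _).const_smul α).mul (co2 _)
    · exact (((co1 _).const_smul (α - 1)).const_smul α).mul (co2 _)
    · exact (co1 _).mul ((co2 _).const_smul (1 - α))
    · exact ((co1 _).const_smul α).mul ((co2 _).const_smul (1 - α))
    · exact (((co1 _).const_smul (α - 1)).const_smul α).mul ((co2 _).const_smul (1 - α))
  · intro u v hu hv
    refine ⟨by positivity, ?_, ?_⟩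
    · exact mul_ne_zero (Real.rpow_pos_of_pos hu _).ne' (mul_ne_zero h2 (Real.rpow_pos_of_pos hv _).ne')
    · exact mul_ne_zero (mul_ne_zero h0 (Real.rpow_pos_of_pos hu _).ne')
        (mul_ne_zero h2 (Real.rpow_pos_of_pos hv _).ne')

/-- `(b u ^ p + c v ^ p) ^ (1 / p)` -/
theorem hom_pow {p b c : ℝ} (h0 : p ≠ 0) (h1 : p ≠ 1) (hb : 0 < b) (hc : 0 < c) :
    Hom (fun u v => (b * u ^ p + c * v ^ p) ^ (1 / p)) := by
  have h2 : 1 - p ≠ 0 := sub_ne_zero.2 (Ne.symm h1)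
  have hG : ∀ u v : ℝ, 0 < u → 0 < v → 0 < b * u ^ p + c * v ^ p := fun u v hu hv => by positivity
  have hGu : ∀ u v q : ℝ, 0 < u → 0 < v → HasDerivAt (fun u => (b * u ^ p + c * v ^ p) ^ q)
      (b * (p * u ^ (p - 1)) * q * (b * u ^ p + c * v ^ p) ^ (q - 1)) u := by
    intro u v q hu hv
    exact (((dr hu).const_mul b).add_const (c * v ^ p)).rpow_const (Or.inl (hG u v hu hv).ne')
  have hGv : ∀ u v q : ℝ, 0 < u → 0 < v → HasDerivAt (fun v => (b * u ^ p + c * v ^ p) ^ q)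
      (c * (p * v ^ (p - 1)) * q * (b * u ^ p + c * v ^ p) ^ (q - 1)) v := by
    intro u v q hu hv
    exact (((dr hv).const_mul c).const_add (b * u ^ p)).rpow_const (Or.inl (hG u v hu hv).ne')
  have hGc : ∀ q : ℝ, ContinuousOn (fun z : ℝ × ℝ => (b * z.1 ^ p + c * z.2 ^ p) ^ q) (Set.Ioi 0 ×ˢ Set.Ioi 0) := by
    intro q
    exact ((continuousOn_const.mul (co1 p)).add (continuousOn_const.mul (co2 p))).rpow_const
      fun z hz => Or.inl (hG z.1 z.2 hz.1 hz.2).ne'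
  refine ⟨?_,
    fun u v => b * (p * u ^ (p - 1)) * (1 / p) * (b * u ^ p + c * v ^ p) ^ (1 / p - 1),
    fun u v => b * (p * ((p - 1) * u ^ (p - 1 - 1))) * (1 / p) * (b * u ^ p + c * v ^ p) ^ (1 / p - 1) +
      b * (p * u ^ (p - 1)) * (1 / p) *
        (b * (p * u ^ (p - 1)) * (1 / p - 1) * (b * u ^ p + c * v ^ p) ^ (1 / p - 1 - 1)),
    fun u v => c * (p * v ^ (p - 1)) * (1 / p) * (b * u ^ p + c * v ^ p) ^ (1 / p - 1),
    fun u v => b * (p * u ^ (p - 1)) * (1 / p) *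
      (c * (p * v ^ (p - 1)) * (1 / p - 1) * (b * u ^ p + c * v ^ p) ^ (1 / p - 1 - 1)),
    fun u v => b * (p * ((p - 1) * u ^ (p - 1 - 1))) * (1 / p) *
        (c * (p * v ^ (p - 1)) * (1 / p - 1) * (b * u ^ p + c * v ^ p) ^ (1 / p - 1 - 1)) +
      b * (p * u ^ (p - 1)) * (1 / p) * (b * (p * u ^ (p - 1)) * (1 / p - 1) *
        (c * (p * v ^ (p - 1)) * (1 / p - 1 - 1) * (b * u ^ p + c * v ^ p) ^ (1 / p - 1 - 1 - 1))), ?_, ?_, ?_⟩
  · intro t u v ht hu hv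
    dsimp only
    have e : b * (t * u) ^ p + c * (t * v) ^ p = t ^ p * (b * u ^ p + c * v ^ p) := by
      rw [Real.mul_rpow ht.le hu.le, Real.mul_rpow ht.le hv.le]
      ring
    rw [e, Real.mul_rpow (by positivity) (hG u v hu hv).le, ← Real.rpow_mul ht.le, mul_one_div_cancel h0, Real.rpow_one]
  · intro u v hu hv
    refine ⟨hGu u v _ hu hv, ?_, hGv u v _ hu hv, ?_, ?_⟩
    · exact ((((dr hu).const_mul p).const_mul b).mul_const (1 / p)).mul (hGu u v _ hu hv)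
    · exact (hGv u v _ hu hv).const_mul _
    · exact ((hGv u v _ hu hv).const_mul _).add (((hGv u v _ hu hv).const_mul _).const_mul _)
  · intro G hG'
    simp only [List.mem_cons, List.not_mem_nil, or_false] at hG'
    have k1 : ∀ q : ℝ, ContinuousOn (fun z : ℝ × ℝ => b * (p * z.1 ^ q) * (1 / p)) (Set.Ioi 0 ×ˢ Set.Ioi 0) :=
      fun q => (continuousOn_const.mul (continuousOn_const.mul (co1 q))).mul continuousOn_const
    have k2 : ∀ q r : ℝ, ContinuousOn (fun z : ℝ × ℝ => c * (p * z.2 ^ q) * r) (Set.Ioi 0 ×ˢ Set.Ioi 0) :=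
      fun q r => (continuousOn_const.mul (continuousOn_const.mul (co2 q))).mul continuousOn_const
    have k3 : ∀ q r : ℝ, ContinuousOn (fun z : ℝ × ℝ => b * (p * z.1 ^ q) * r) (Set.Ioi 0 ×ˢ Set.Ioi 0) :=
      fun q r => (continuousOn_const.mul (continuousOn_const.mul (co1 q))).mul continuousOn_const
    have k4 : ∀ q : ℝ, ContinuousOn (fun z : ℝ × ℝ => b * (p * ((p - 1) * z.1 ^ q)) * (1 / p))
        (Set.Ioi 0 ×ˢ Set.Ioi 0) :=
      fun q => (continuousOn_const.mul (continuousOn_const.mul (continuousOn_const.mul (co1 q)))).mul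
        continuousOn_const
    rcases hG' with rfl | rfl | rfl | rfl | rfl | rfl
    · exact hGc _
    · exact (k1 _).mul (hGc _)
    · exact ((k4 _).mul (hGc _)).add ((k1 _).mul ((k3 _ _).mul (hGc _)))
    · exact (k2 _ _).mul (hGc _)
    · exact (k1 _).mul ((k2 _ _).mul (hGc _))
    · exact ((k4 _).mul ((k2 _ _).mul (hGc _))).add ((k1 _).mul ((k3 _ _).mul ((k2 _ _).mul (hGc _))))
  · intro u v hu hv
    have g0 := hG u v hu hv
    have e3 : (1 / p - 1) ≠ 0 := by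
      rw [div_sub_one h0]
      exact div_ne_zero h2 h0
    refine ⟨Real.rpow_pos_of_pos g0 _, ?_, ?_⟩
    · exact mul_ne_zero (mul_ne_zero (mul_ne_zero hc.ne' (mul_ne_zero h0 (Real.rpow_pos_of_pos hv _).ne'))
        (one_div_ne_zero h0)) (Real.rpow_pos_of_pos g0 _).ne'
    · exact mul_ne_zero (mul_ne_zero (mul_ne_zero hb.ne' (mul_ne_zero h0 (Real.rpow_pos_of_pos hu _).ne'))
        (one_div_ne_zero h0)) (mul_ne_zero (mul_ne_zero (mul_ne_zero hc.ne'
          (mul_ne_zero h0 (Real.rpow_pos_of_pos hv _).ne')) e3) (Real.rpow_pos_of_pos g0 _).ne')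

end Pool.Agent.J4.H74.OZ
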