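import Pool.Agent.J4.H74.OZ.Core
import Pool.Agent.N733.TG.K
import Pool.Agent.N733.TG.M
import Pool.Agent.N760.IT.D



set_option autoImplicit false

/-!
Bad real parameters avoid the values of multiplicative functions, the values at the iterates of Euler's function, the
denominators of approximations and the values of starshaped functions at typical reals (helper74).
-/

namespace Pool.Agent.J4.H74.OZ

open Finset Filter Topology
open Pool.Agent.N733.TG (LM Expanding)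

/-- all real parameters `a ≥ 2` within `w` of `x` are good -/
def AllGood (Bad : ℕ → ℝ → Prop) (x w : ℝ) : Prop := ∀ a : ℝ, 2 ≤ a → |a - x| ≤ w → ¬ Bad (sc a) a

lemma allGood_of {Bad : ℕ → ℝ → Prop} {x w : ℝ} (hw : 1 ≤ w)
    (h : ∀ n : ℕ, 1 ≤ n → |(n : ℝ) - x| ≤ w → ¬ Near Bad n) : AllGood Bad x w := by
  intro a ha hax hbad
  obtain ⟨n, h1, h2, h3⟩ := exists_near ha hw hax
  exact h n h1 h2 ⟨a, ha, h3, hbad⟩

lemma count' {s : ℝ} (hs : 0 ≤ s) {Bad : ℕ → ℝ → Prop} (hB : Few s Bad) :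
    ∀ ε : ℝ, 0 < ε → ∃ C : ℝ, ∀ X : ℕ, 1 ≤ X →
      ({t : ℕ | 1 ≤ t ∧ t ≤ X ∧ True ∧ ¬ ¬ Near Bad t}.ncard : ℝ) ≤ C * (X : ℝ) ^ (s + ε) := by
  intro ε hε
  obtain ⟨C, hC⟩ := near_count hs hB ε hε
  refine ⟨C, fun X hX => le_trans (le_of_eq ?_) (hC X hX)⟩
  congr 2
  ext t
  simp only [Set.mem_ofPred_eq, true_and, not_not]

theorem keep {s κ : ℝ} (hs : 0 ≤ s) {Bad : ℕ → ℝ → Prop} (hB : Few s Bad) {f : ℕ → ℕ} (hf : LM f) {V : ℕ → ℝ}
    {d : ℝ} (hV : Expanding V d) (hκ : 0 ≤ κ) (h1 : d * s + κ < 1) (A : ℕ) :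
    ∃ M₀ : ℕ, ∀ M : ℕ, M₀ ≤ M →
      ({m : ℕ | 1 ≤ m ∧ m ≤ M ∧ ¬ AllGood Bad (V (f m)) ((f m : ℝ) ^ κ)}.ncard : ℝ) ≤ M / Real.log M ^ A := by
  obtain ⟨M₀, h⟩ := Pool.Agent.N733.TG.keep_good_nat (fun _ => True) (fun n => ¬ Near Bad n) hf hV hs hκ h1
    (count' hs hB) A
  refine ⟨M₀, fun M hM => le_trans ?_ (h M hM)⟩
  have hsub : {m : ℕ | 1 ≤ m ∧ m ≤ M ∧ ¬ AllGood Bad (V (f m)) ((f m : ℝ) ^ κ)} ⊆
      {m : ℕ | 1 ≤ m ∧ m ≤ M ∧ ¬ ∀ n : ℕ, 1 ≤ n → True → |(n : ℝ) - V (f m)| ≤ (f m : ℝ) ^ κ → ¬ Near Bad n} := by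
    rintro m ⟨h1, h2, h3⟩
    refine ⟨h1, h2, fun h4 => h3 (allGood_of ?_ fun n hn1 hn2 => h4 n hn1 trivial hn2)⟩
    have : (1 : ℝ) ≤ f m := by exact_mod_cast hf.pos m h1
    exact Real.one_le_rpow this hκ
  exact_mod_cast Set.ncard_le_ncard hsub ((Set.finite_Iic M).subset fun m hm => hm.2.1)

open Classical in
/-- The proportion of the positive integers `m ≤ M` without the property `P` tends to `0`. -/
def AlmostAll (P : ℕ → Prop) : Prop :=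
  Tendsto (fun M : ℕ => (((Finset.Icc 1 M).filter (fun m => ¬ P m)).card : ℝ) / M) atTop (𝓝 0)

open Classical in
lemma AlmostAll.mono {P Q : ℕ → Prop} (h : AlmostAll P) (hPQ : ∀ m : ℕ, 1 ≤ m → P m → Q m) : AlmostAll Q := by
  unfold AlmostAll at h ⊢
  refine squeeze_zero (fun M => by positivity) (fun M => ?_) h
  apply div_le_div_of_nonneg_right _ (Nat.cast_nonneg M)
  refine Nat.cast_le.2 (card_le_card ?_)
  intro m hm
  rw [mem_filter, mem_Icc] at hm ⊢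
  exact ⟨hm.1, fun h4 => hm.2 (hPQ m hm.1.1 h4)⟩

theorem orbit {s κ : ℝ} (hs : 0 ≤ s) {Bad : ℕ → ℝ → Prop} (hB : Few s Bad) {f : ℕ → ℕ} (hf : LM f) {V : ℕ → ℝ}
    {d : ℝ} (hV : Expanding V d) (hκ : 0 ≤ κ) (h1 : d * s + κ < 1) :
    ∃ K : ℕ → ℕ, Tendsto K atTop atTop ∧
      AlmostAll (fun m => ∀ k ≤ K m,
        AllGood Bad (V (f (Nat.totient^[k] m))) ((f (Nat.totient^[k] m) : ℝ) ^ κ)) := by
  classical
  obtain ⟨K, hK, h⟩ := Pool.Agent.N760.IT.orbit_good_nat (fun _ => True) (fun n => ¬ Near Bad n) hf hV hs hκ h1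
    (count' hs hB)
  refine ⟨K, hK, ?_⟩
  have h' : AlmostAll (fun m => ∀ k ≤ K m, ∀ n : ℕ, 1 ≤ n → True →
      |(n : ℝ) - V (f (Nat.totient^[k] m))| ≤ (f (Nat.totient^[k] m) : ℝ) ^ κ → ¬ Near Bad n) := h
  refine h'.mono ?_
  intro m hm1 h4 k hk
  refine allGood_of ?_ fun n hn1 hn2 => h4 k hk n hn1 trivial hn2
  have h5 : ∀ k : ℕ, 1 ≤ Nat.totient^[k] m := by
    intro k
    induction k with
    | zero => exact hm1
    | succ k ih =>
      rw [Function.iterate_succ_apply']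
      exact Nat.totient_pos.2 ih
  have : (1 : ℝ) ≤ f (Nat.totient^[k] m) := by exact_mod_cast hf.pos _ (h5 k)
  exact Real.one_le_rpow this hκ

end Pool.Agent.J4.H74.OZ
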