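import Pool.Agent.J4.H74.OZ.Core
import Pool.Agent.J4.H74.GDim
import Pool.Agent.R482.ST.Star

set_option autoImplicit false

/-!
Bad real parameters at the scales between `a` and `a ^ (1 + δ)`: the count, and typical real numbers (helper74).
-/

namespace Pool.Agent.J4.H74.OZ

open Finset Filter Topology

/-- the integers near a parameter `a` which is bad for a scale `2 ^ j` between `a` and `2 a ^ (1 + δ)` -/
def NearS (δ : ℝ) (Bad : ℕ → ℝ → Prop) (n : ℕ) : Prop :=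
  ∃ a : ℝ, 2 ≤ a ∧ |a - n| ≤ 1 ∧ ∃ j : ℕ, a < 2 ^ j ∧ (2 : ℝ) ^ j ≤ 2 * a ^ (1 + δ) ∧ Bad j a

/-- few bad parameters among 1-spaced ones at the scales `2 ^ j` -/
def FewS (s : ℝ) (Bad : ℕ → ℝ → Prop) : Prop :=
  ∃ (W : ℝ) (j₀ : ℕ), 0 ≤ W ∧ ∀ j : ℕ, j₀ ≤ j → ∀ (A : Finset ℕ) (g : ℕ → ℝ) (w : ℝ),
    (∀ a ∈ A, 0 ≤ g a ∧ g a ≤ 2 ^ j) →
    (∀ y : ℝ, ({a : ℕ | a ∈ A ∧ y ≤ g a ∧ g a < y + 1}.ncard : ℝ) ≤ w) →
    ({a : ℕ | a ∈ A ∧ Bad j (g a)}.ncard : ℝ) ≤ W * w * ((2 : ℝ) ^ j) ^ s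

open Classical in
theorem nearS_count {s δ : ℝ} (hs : 0 ≤ s) (hδ : 0 ≤ δ) {Bad : ℕ → ℝ → Prop} (hB : FewS s Bad) (ε : ℝ) (hε : 0 < ε) :
    ∃ C : ℝ, ∀ X : ℕ, 1 ≤ X →
      ({n : ℕ | 1 ≤ n ∧ n ≤ X ∧ NearS δ Bad n}.ncard : ℝ) ≤ C * (X : ℝ) ^ ((1 + δ) * s + ε) := by
  obtain ⟨W, j₀, hW, hj₀⟩ := hB
  obtain ⟨D, hD⟩ : ∃ D : ℝ, D = 2 * 3 ^ (1 + δ) := ⟨_, rfl⟩
  have hD0 : 0 < D := by rw [hD]; positivity
  have hD1 : 1 ≤ D := by
    rw [hD]
    have : (1 : ℝ) ≤ 3 ^ (1 + δ) := Real.one_le_rpow (by norm_num) (by linarith)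
    linarith
  obtain ⟨C₁, hC₁⟩ : ∃ C₁ : ℝ, C₁ = W * 4 * D ^ s + (2 ^ j₀ + 2) := ⟨_, rfl⟩
  have hC₁0 : 0 < C₁ := by rw [hC₁]; positivity
  obtain ⟨C₂, hC₂⟩ : ∃ C₂ : ℝ, C₂ = 2 * Real.log D + 2 * (1 + δ) / ε + 1 := ⟨_, rfl⟩
  have hlD : 0 ≤ Real.log D := Real.log_nonneg hD1
  refine ⟨C₂ * C₁, fun X hX => ?_⟩
  have hX1 : (1 : ℝ) ≤ X := by exact_mod_cast hX
  have hX0 : (0 : ℝ) < X := by linarith
  obtain ⟨S, hS⟩ : ∃ S : Finset ℕ, S = (Icc 1 X).filter (fun n => NearS δ Bad n) := ⟨_, rfl⟩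
  have e0 : {n : ℕ | 1 ≤ n ∧ n ≤ X ∧ NearS δ Bad n} = (S : Set ℕ) := by
    ext n
    rw [hS, Finset.coe_filter, Set.mem_ofPred_eq, Set.mem_ofPred_eq, mem_Icc]
    tauto
  rw [e0, Set.ncard_coe_finset]
  have hex : ∀ n : ℕ, ∃ a : ℝ, n ∈ S → 2 ≤ a ∧ |a - n| ≤ 1 ∧
      ∃ j : ℕ, a < 2 ^ j ∧ (2 : ℝ) ^ j ≤ 2 * a ^ (1 + δ) ∧ Bad j a := by
    intro n
    by_cases hn : n ∈ S
    · rw [hS, mem_filter] at hn
      obtain ⟨a, ha⟩ := hn.2
      exact ⟨a, fun _ => ha⟩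
    · exact ⟨0, fun h => absurd h hn⟩
  choose g hg using hex
  have hex2 : ∀ n : ℕ, ∃ j : ℕ, n ∈ S → g n < 2 ^ j ∧ (2 : ℝ) ^ j ≤ 2 * g n ^ (1 + δ) ∧ Bad j (g n) := by
    intro n
    by_cases hn : n ∈ S
    · obtain ⟨j, hj⟩ := (hg n hn).2.2
      exact ⟨j, fun _ => hj⟩
    · exact ⟨0, fun h => absurd h hn⟩
  choose jj hjj using hex2
  have hgX : ∀ n ∈ S, (2 : ℝ) ^ (jj n) ≤ D * (X : ℝ) ^ (1 + δ) := by
    intro n hn
    obtain ⟨h1, h2, -⟩ := hg n hn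
    obtain ⟨-, h4, -⟩ := hjj n hn
    rw [hS, mem_filter, mem_Icc] at hn
    have hnX : (n : ℝ) ≤ X := by exact_mod_cast hn.1.2
    have h3 := (abs_le.1 h2).2
    have h5 : g n ≤ 3 * X := by linarith
    calc (2 : ℝ) ^ (jj n) ≤ 2 * g n ^ (1 + δ) := h4
      _ ≤ 2 * (3 * X) ^ (1 + δ) := by
          have := Real.rpow_le_rpow (by linarith) h5 (show 0 ≤ 1 + δ by linarith)
          linarith
      _ = D * (X : ℝ) ^ (1 + δ) := by
          rw [hD, Real.mul_rpow (by norm_num) hX0.le]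
          ring
  obtain ⟨J, hJ⟩ : ∃ J : ℕ, J = ⌊Real.logb 2 (D * (X : ℝ) ^ (1 + δ))⌋₊ := ⟨_, rfl⟩
  have hDX : 1 ≤ D * (X : ℝ) ^ (1 + δ) := by
    have : 1 ≤ (X : ℝ) ^ (1 + δ) := Real.one_le_rpow hX1 (by linarith)
    nlinarith
  have hjJ : ∀ n ∈ S, jj n ≤ J := by
    intro n hn
    rw [hJ]
    apply Nat.le_floor
    rw [Real.le_logb_iff_rpow_le (by norm_num) (by linarith), Real.rpow_natCast]
    exact hgX n hn
  have hcover : S ⊆ (range (J + 1)).biUnion (fun j => S.filter (fun n => jj n = j)) := by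
    intro n hn
    rw [mem_biUnion]
    exact ⟨jj n, by rw [mem_range]; have := hjJ n hn; omega, by rw [mem_filter]; exact ⟨hn, rfl⟩⟩
  have hpiece : ∀ j ∈ range (J + 1),
      ((S.filter (fun n => jj n = j)).card : ℝ) ≤ C₁ * (X : ℝ) ^ ((1 + δ) * s) := by
    intro j _
    have hXs : 1 ≤ (X : ℝ) ^ ((1 + δ) * s) := Real.one_le_rpow hX1 (by positivity)
    rcases lt_or_ge j j₀ with hlt | hge
    · have h1 : S.filter (fun n => jj n = j) ⊆ range (2 ^ j₀ + 2) := by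
        intro n hn
        rw [mem_filter] at hn
        obtain ⟨h1, h2, -⟩ := hg n hn.1
        have h3 := (hjj n hn.1).1
        rw [hn.2] at h3
        have h4 : (2 : ℝ) ^ j ≤ 2 ^ j₀ := pow_le_pow_right₀ (by norm_num) hlt.le
        have h5 := (abs_le.1 h2).1
        rw [mem_range]
        have h6 : (n : ℝ) < ((2 ^ j₀ + 2 : ℕ) : ℝ) := by
          push_cast
          linarith
        exact_mod_cast h6
      have h2 : ((S.filter (fun n => jj n = j)).card : ℝ) ≤ 2 ^ j₀ + 2 := by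
        have := card_le_card h1
        rw [card_range] at this
        exact_mod_cast this
      refine h2.trans ?_
      have h3 : (2 : ℝ) ^ j₀ + 2 ≤ C₁ := by
        rw [hC₁]
        have : (0 : ℝ) ≤ W * 4 * D ^ s := by positivity
        linarith
      calc (2 : ℝ) ^ j₀ + 2 ≤ C₁ * 1 := by linarith
        _ ≤ C₁ * (X : ℝ) ^ ((1 + δ) * s) := mul_le_mul_of_nonneg_left hXs hC₁0.le
    · by_cases hemp : (S.filter (fun n => jj n = j)).Nonempty
      · obtain ⟨n₁, hn₁⟩ := hemp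
        have h1 := hj₀ j hge (S.filter (fun n => jj n = j)) g 4 (by
          intro n hn
          rw [mem_filter] at hn
          obtain ⟨h1, -, -⟩ := hg n hn.1
          have h3 := (hjj n hn.1).1
          rw [hn.2] at h3
          exact ⟨by linarith, h3.le⟩) (by
          intro y
          have hsub : {a : ℕ | a ∈ S.filter (fun n => jj n = j) ∧ y ≤ g a ∧ g a < y + 1} ⊆
              ((Icc ⌈y - 1⌉ (⌈y - 1⌉ + 3)).image Int.toNat : Finset ℕ) := by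
            rintro n ⟨hn, h3, h4⟩
            rw [mem_filter] at hn
            obtain ⟨h1, h2, -⟩ := hg n hn.1
            have h5 := abs_le.1 h2
            rw [Finset.mem_coe, mem_image]
            refine ⟨(n : ℤ), ?_, Int.toNat_natCast n⟩
            rw [mem_Icc]
            constructor
            · rw [Int.ceil_le]
              push_cast
              linarith
            · have h6 : (n : ℝ) < ((⌈y - 1⌉ + 4 : ℤ) : ℝ) := by
                push_cast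
                have := Int.le_ceil (y - 1)
                linarith
              have h7 : (n : ℤ) < ⌈y - 1⌉ + 4 := by exact_mod_cast h6
              omega
          have h8 := Set.ncard_le_ncard hsub (Finset.finite_toSet _)
          rw [Set.ncard_coe_finset] at h8
          have h9 : ((Icc ⌈y - 1⌉ (⌈y - 1⌉ + 3)).image Int.toNat).card ≤ 4 := by
            refine card_image_le.trans ?_
            rw [Int.card_Icc]
            omega
          exact_mod_cast h8.trans h9)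
        have h2 : {a : ℕ | a ∈ S.filter (fun n => jj n = j) ∧ Bad j (g a)} =
            (S.filter (fun n => jj n = j) : Set ℕ) := by
          ext n
          constructor
          · rintro ⟨h3, -⟩
            exact h3
          · intro h3
            refine ⟨h3, ?_⟩
            have h3' : n ∈ S.filter (fun n => jj n = j) := h3
            rw [mem_filter] at h3'
            have h4 := (hjj n h3'.1).2.2
            rw [h3'.2] at h4
            exact h4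
        rw [h2, Set.ncard_coe_finset] at h1
        refine h1.trans ?_
        have h3 : (2 : ℝ) ^ j ≤ D * (X : ℝ) ^ (1 + δ) := by
          rw [mem_filter] at hn₁
          have := hgX n₁ hn₁.1
          rwa [hn₁.2] at this
        have h4 : ((2 : ℝ) ^ j) ^ s ≤ D ^ s * (X : ℝ) ^ ((1 + δ) * s) := by
          rw [Real.rpow_mul hX0.le, ← Real.mul_rpow hD0.le (by positivity)]
          exact Real.rpow_le_rpow (by positivity) h3 hs
        calc W * 4 * ((2 : ℝ) ^ j) ^ s ≤ W * 4 * (D ^ s * (X : ℝ) ^ ((1 + δ) * s)) :=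
              mul_le_mul_of_nonneg_left h4 (by positivity)
          _ = (W * 4 * D ^ s) * (X : ℝ) ^ ((1 + δ) * s) := by ring
          _ ≤ C₁ * (X : ℝ) ^ ((1 + δ) * s) := by
              apply mul_le_mul_of_nonneg_right _ (by positivity)
              rw [hC₁]
              have : (0 : ℝ) < 2 ^ j₀ := by positivity
              linarith
      · rw [not_nonempty_iff_eq_empty.1 hemp, card_empty, Nat.cast_zero]
        positivity
  have hJr : (J : ℝ) + 1 ≤ C₂ * (X : ℝ) ^ ε := by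
    have h0 : 0 ≤ Real.logb 2 (D * (X : ℝ) ^ (1 + δ)) := Real.logb_nonneg (by norm_num) hDX
    have h1 : (J : ℝ) ≤ 2 * Real.log (D * (X : ℝ) ^ (1 + δ)) := by
      rw [hJ]
      refine (Nat.floor_le h0).trans ?_
      rw [← Real.log_div_log, div_le_iff₀ (Real.log_pos (by norm_num))]
      have h4 := Real.log_two_gt_d9
      have h5 : 0 ≤ Real.log (D * (X : ℝ) ^ (1 + δ)) := Real.log_nonneg hDX
      nlinarith
    have h2 : Real.log (D * (X : ℝ) ^ (1 + δ)) ≤ Real.log D + (1 + δ) * ((X : ℝ) ^ ε / ε) := by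
      rw [Real.log_mul hD0.ne' (by positivity), Real.log_rpow hX0]
      have h3 := Real.log_le_rpow_div hX0.le hε
      have : (1 + δ) * Real.log X ≤ (1 + δ) * ((X : ℝ) ^ ε / ε) := mul_le_mul_of_nonneg_left h3 (by linarith)
      linarith
    have h3 : 1 ≤ (X : ℝ) ^ ε := Real.one_le_rpow hX1 hε.le
    rw [hC₂]
    calc (J : ℝ) + 1 ≤ 2 * (Real.log D + (1 + δ) * ((X : ℝ) ^ ε / ε)) + 1 := by linarith
      _ = (2 * Real.log D + 1) * 1 + 2 * (1 + δ) / ε * (X : ℝ) ^ ε := by ring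
      _ ≤ (2 * Real.log D + 1) * (X : ℝ) ^ ε + 2 * (1 + δ) / ε * (X : ℝ) ^ ε := by
          have : (2 * Real.log D + 1) * 1 ≤ (2 * Real.log D + 1) * (X : ℝ) ^ ε :=
            mul_le_mul_of_nonneg_left h3 (by linarith)
          linarith
      _ = _ := by ring
  have hcard : (S.card : ℝ) ≤ ∑ j ∈ range (J + 1), ((S.filter (fun n => jj n = j)).card : ℝ) := by
    exact_mod_cast (card_le_card hcover).trans card_biUnion_le
  refine hcard.trans ((sum_le_sum hpiece).trans ?_)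
  rw [sum_const, card_range, nsmul_eq_mul, Real.rpow_add hX0]
  push_cast
  calc ((J : ℝ) + 1) * (C₁ * (X : ℝ) ^ ((1 + δ) * s)) ≤ (C₂ * (X : ℝ) ^ ε) * (C₁ * (X : ℝ) ^ ((1 + δ) * s)) :=
        mul_le_mul_of_nonneg_right hJr (by positivity)
    _ = _ := by ring

/-- all real parameters `a ≥ 2` within `w` of `x` are good at all scales between `a` and `2 a ^ (1 + δ)` -/
def AllGoodS (δ : ℝ) (Bad : ℕ → ℝ → Prop) (x w : ℝ) : Prop :=
  ∀ a : ℝ, 2 ≤ a → |a - x| ≤ w → ∀ j : ℕ, a < 2 ^ j → (2 : ℝ) ^ j ≤ 2 * a ^ (1 + δ) → ¬ Bad j a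

lemma allGoodS_of {δ : ℝ} {Bad : ℕ → ℝ → Prop} {x w : ℝ} (hw : 1 ≤ w)
    (h : ∀ n : ℕ, 1 ≤ n → |(n : ℝ) - x| ≤ w → ¬ NearS δ Bad n) : AllGoodS δ Bad x w := by
  intro a ha hax j hj1 hj2 hbad
  obtain ⟨n, h1, h2, h3⟩ := exists_near ha hw hax
  exact h n h1 h2 ⟨a, ha, h3, j, hj1, hj2, hbad⟩

open Classical in
lemma countS' {s δ : ℝ} (hs : 0 ≤ s) (hδ : 0 ≤ δ) {Bad : ℕ → ℝ → Prop} (hB : FewS s Bad) :
    ∀ ε : ℝ, 0 < ε → ∃ C : ℝ, ∀ X : ℕ, 1 ≤ X →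
      (((Ioc 0 X).filter (fun t => ¬ ¬ NearS δ Bad t)).card : ℝ) ≤ C * (X : ℝ) ^ ((1 + δ) * s + ε) := by
  intro ε hε
  obtain ⟨C, hC⟩ := nearS_count hs hδ hB ε hε
  refine ⟨C, fun X hX => le_trans (le_of_eq ?_) (hC X hX)⟩
  rw [← Set.ncard_coe_finset]
  congr 2
  ext t
  simp only [Finset.coe_filter, Finset.mem_Ioc, Set.mem_ofPred_eq, not_not]
  constructor
  · rintro ⟨⟨a1, a2⟩, a3⟩
    exact ⟨a1, a2, a3⟩
  · rintro ⟨a1, a2, a3⟩
    exact ⟨⟨a1, a2⟩, a3⟩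

/-- near the values of starshaped functions at typical reals -/
theorem star {s δ : ℝ} (hs : 0 ≤ s) (hδ : 0 ≤ δ) {Bad : ℕ → ℝ → Prop} (hB : FewS s Bad) {g : ℕ → ℝ → ℝ}
    {a₀ τ θ : ℝ} (hg : Pool.Agent.R482.ST.Starshaped a₀ g) (hτ : 0 ≤ τ) (hv : Pool.Agent.R482.ST.Conv a₀ g τ)
    (hθ0 : 0 ≤ θ) (hθ : θ < 1) :
    ∃ E : Set ℝ, dimH E ≤ ENNReal.ofReal (((1 + δ) * s + τ) / (1 - θ)) ∧
      ∀ x : ℝ, a₀ < x → x ∉ E → ∀ b : ℝ, ∃ n₀ : ℕ, ∀ n : ℕ, n₀ ≤ n →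
        AllGoodS δ Bad (g n x) (b * (g n x) ^ θ) := by
  classical
  obtain ⟨E, h1, h2⟩ := Pool.Agent.R482.ST.star_nat {n : ℕ | NearS δ Bad n} (s := (1 + δ) * s) (θ := θ) hg.1 hg.2 hv
    (by positivity) hτ hθ (by
      intro ε hε
      obtain ⟨C, hC⟩ := countS' hs hδ hB ε hε
      refine ⟨C, fun X hX => le_trans (le_of_eq ?_) (hC X hX)⟩
      congr 2
      ext t
      simp only [mem_filter, Set.mem_ofPred_eq, not_not])
  refine ⟨E, h1, fun x hx hxE b => ?_⟩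
  obtain ⟨n₀, hn₀⟩ := h2 x hx hxE (|b| + 1)
  have hlim : Tendsto (fun n => (g n x) ^ (-(τ + 1))) atTop (𝓝 0) :=
    (hv x hx (τ + 1) (by linarith)).tendsto_atTop_zero
  obtain ⟨n₁, hn₁⟩ := eventually_atTop.1 (hlim.eventually (eventually_lt_nhds (show (0 : ℝ) < 1 by norm_num)))
  refine ⟨max n₀ n₁, fun n hn => ?_⟩
  have hgpos : 0 < g n x := (hg.2 n x x hx le_rfl).1
  have hg1 : 1 ≤ g n x := by
    by_contra hcon
    rw [not_le] at hcon
    have h3 := hn₁ n ((le_max_right _ _).trans hn)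
    have h4 : 1 < (g n x) ^ (-(τ + 1)) := Real.one_lt_rpow_of_pos_of_lt_one_of_neg hgpos hcon (by linarith)
    linarith
  have hw1 : 1 ≤ (g n x) ^ θ := Real.one_le_rpow hg1 hθ0
  intro a ha hax j hj1 hj2 hbad
  have hax' : |a - g n x| ≤ (|b| + 1) * (g n x) ^ θ := by
    refine hax.trans ?_
    have h3 : b ≤ |b| := le_abs_self b
    nlinarith
  have hw : 1 ≤ (|b| + 1) * (g n x) ^ θ := by
    have := abs_nonneg b
    nlinarith
  obtain ⟨m, k1, k2, k3⟩ := exists_near ha hw hax'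
  exact (hn₀ n ((le_max_left _ _).trans hn) m k2).2 ⟨a, ha, k3, j, hj1, hj2, hbad⟩

/-- near the denominators of approximations -/
theorem dens {s δ : ℝ} (hs : 0 ≤ s) (hδ : 0 ≤ δ) {Bad : ℕ → ℝ → Prop} (hB : FewS s Bad) {V : ℕ → ℝ} {d : ℝ}
    (hV : Pool.Agent.N733.TG.Expanding V d) {κ τ : ℝ} (hκ : 0 ≤ κ) (hκ1 : κ ≤ 1) (hτ : 0 < τ) {k : ℕ}
    (β : Fin k → ℝ) :
    ∃ E : Set (Fin k → ℝ), dimH E ≤ ENNReal.ofReal ((k + (d * ((1 + δ) * s) + κ)) / (1 + τ)) ∧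
      ∀ α, α ∉ E → ∀ c : ℝ, ∃ Q : ℕ, ∀ q : ℕ, Q ≤ q →
        (∀ i, ∃ p : ℤ, |(q : ℝ) * α i - β i - p| ≤ c * (q : ℝ) ^ (-τ)) →
        AllGoodS δ Bad (V q) ((q : ℝ) ^ κ) := by
  classical
  obtain ⟨E, h1, h2⟩ := Pool.Agent.J4.H74.GDim.dim_near (m := k) (fun n => ¬ NearS δ Bad n) hV
    (s := (1 + δ) * s) (κ := κ) (τ := τ) (by positivity) hκ hκ1 hτ (by
      intro ε hε
      obtain ⟨C, hC⟩ := countS' hs hδ hB ε hε
      refine ⟨C, fun X hX => le_trans (le_of_eq ?_) (hC X hX)⟩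
      congr 2
      ext t
      simp only [mem_filter]) β
  refine ⟨E, h1, fun α hα c => ?_⟩
  obtain ⟨Q, hQ⟩ := h2 α hα c
  refine ⟨max Q 1, fun q hq hap => ?_⟩
  have hq1 : (1 : ℝ) ≤ q := by exact_mod_cast (le_max_right _ _).trans hq
  exact allGoodS_of (Real.one_le_rpow hq1 hκ) (hQ q ((le_max_left _ _).trans hq) hap)

end Pool.Agent.J4.H74.OZ
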